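import Mathlib
import Pool.Agent.Helper11.BD.Final
import Pool.Agent.Helper11.BD.Aniso

/-!
# The standard conjectures and the determinants of the cohomology groups

Let `W` be any Weil cohomology theory over any field `k`, with coefficient field `K`, and let `F`
be a subfield of `K`, such as `K` or the field of rational numbers. Let `X` be a variety of dimension
`n` with a divisor `d` for which the hard Lefschetz theorem holds. The Lefschetz standard conjecture
`B(X)` says that the inverses `H ^ (2 n - i)(X) → H ^ i(X)` of the multiplications by `d ^ (n - i)`
are given by algebraic correspondences.

We show that `B(X)` is a statement about the one-dimensional spaces `det H ^ i(X)`, which are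
subspaces of the cohomology of powers of `X`. It holds if and only if for all `i < n` some positive
power of `det H ^ (2 n - i)(X)` is not orthogonal to all classes of algebraic cycles on the power of
`X` concerned: one number has to be different from zero for each `i < n`.

It holds if and only if for all `i < n` some tensor product of spaces `det H ^ j(X)`, `j ≤ n`, with
repetitions, one of them `det H ^ i(X)`, is generated by the class of an algebraic cycle (with
coefficients in `F`). If `B(X)` holds, then the square of every tensor product of spaces
`det H ^ i(X)` is generated by the class of an algebraic cycle. So `B(X)` holds if and only if the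
square of the single line `det H ^ 0(X) ⊗ … ⊗ det H ^ (n - 1)(X)` is generated by the class of an
algebraic cycle.

It is equivalent that no tensor product of spaces `det H ^ i(X)` is generated by a class of an
algebraic cycle which is numerically trivial; the squares of `det H ^ (2 n - i)(X)` for `i < n`
suffice. So `B(X)` follows from the standard conjecture D for a single power of `X`, or rather for
the classes in one line for each `i < n`.

The standard conjecture D for all powers of `X` is a statement of the same kind: it holds if and
only if `B(X)` holds and no numerically trivial class generates a tensor product of determinants of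
subspaces `G` of the `H ^ i(X)`, `i ≤ n`, which are isotropic for the form `⟨x, d ^ (n - i) y⟩` and
stable under correspondences and all symmetries of the cohomology theory which preserve the degrees,
such as the action of the Galois group of `k` on `ℓ`-adic cohomology.

So if there are no such subspaces except zero, `B(X)` is equivalent to D for all powers of `X`. For
`ℓ`-adic cohomology this is the case if no Galois stable subspace `≠ 0` of `H ^ i(X)`, `i ≤ n`, is
isotropic. For example, let `k` be a finite field with `q` elements, assume that the eigenvalues of
the Frobenius on each `H ^ i(X)` are simple and that the complex conjugation of the field which they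
generate, which maps an eigenvalue `a` on `H ^ i(X)` to `q ^ i / a`, comes from an automorphism of
an algebraic closure of `K` over `K` (this is the case for a set of primes `ℓ` of positive density).

If all powers of `X` satisfy the hard Lefschetz theorem and the standard conjecture of Hodge type,
in particular if `k` has characteristic zero, `B(X)` is again equivalent to D for all powers of `X`.
In both cases D holds for all powers of `X` if and only if the square of the single line
`det H ^ 0(X) ⊗ … ⊗ det H ^ (n - 1)(X)` is generated by the class of an algebraic cycle.

On the proof. Assume that the Künneth projectors to `H ^ j(X)` and `H ^ (2 n - j)(X)` are algebraic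
for `j < i`. Then the map `l` which is the multiplication by `d ^ (n - i)` on `H ^ i(X)` and zero in
the other degrees is algebraic. Its class `L` on `X × X` lies in the tensor square of
`E = H ^ (2 n - i)(X)`. The antisymmetrized product of `b = dim E` copies of `L` is an algebraic
class in `(det E) ^ 2`. If it is not numerically trivial, the contraction of the product of `b - 1`
copies of `L` with some algebraic class (there are two free slots) gives the inverse of `l`, by
Cramer's rule, and the projectors to `H ^ i(X)` and to `E` are algebraic too. If `w` is a generator
of `(det E) ^ m`, the class `w × w` is the product of `m` copies of the class in `(det E) ^ 2`, up to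
a nonzero factor, and `⟨w × w, a × a⟩ = ⟨w, a⟩ ^ 2`. If some product of
lines `det H ^ j(X)`, `j ≤ n`, one of them `det H ^ i(X)`, contains an algebraic class, its
exterior square is an algebraic class on the square of the power of `X`; we multiply it by the class
in `(det E) ^ 2`, in the slots of the line `det H ^ i(X)`, and by powers of the classes of the
multiplications by `d ^ (n - j)` in the slots of the other lines. The trace of the product is, up to
a nonzero factor, a product of determinants of Gram matrices of `H ^ j(X)` for the form
`x, y ↦ d ^ (n - j) x y`, so it is not zero. Conversely the inverse of `l` gives a class in
`(det H ^ i(X)) ^ 2` which is dual to a given class in `(det E) ^ 2`.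

For conjecture D we use the flags of isotropic subspaces of the even and the odd part of `H(X)`,
stable under all algebraic correspondences and symmetries, with a numerically trivial determinant,
which exist by geometric invariant theory if conjecture D fails for some power of `X`. If `B(X)` holds, the Künneth
projectors and the inverses of the maps given by powers of `d` are algebraic, so the subspaces are
the direct sums of their homogeneous parts and we can move these into degrees `i ≤ n`.
-/

universe u v w t

open Pool.Agent.Helper10 Pool.Agent.Helper11.Obs Pool.Agent.Helper11.BD

theorem Pool.Agent.Helper11.Old.BettiDeterminants.result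
    {k : Type u} [Field k] {K : Type v} [Field K] [CharZero K] (W : WeilCohomology.{u, v, w} k K)
    (F F' : Subfield K) (X : SmProjVar k) (d : X.Z 1)
    (hd : HardLefschetz W.toCohomologyData X d) :
    -- the Lefschetz standard conjecture
    List.TFAE [LefschetzStandard W.toCohomologyData F' X d,
      LefschetzStandard W.toCohomologyData F X d,
      ∀ i < X.dim, ∃ m, 0 < m ∧ HasNonorthogonalDeterminant W.toCohomologyData
        fun _ : Fin m => W.gr X (2 * X.dim - i),
      ∀ i < X.dim, ∃ (N : ℕ) (c : Fin N → ℕ), (∀ y, c y ≤ X.dim) ∧ (∃ y, c y = i) ∧
        HasAlgebraicDeterminant W.toCohomologyData F fun y => W.gr X (c y),
      ∀ (N : ℕ) (c : Fin N → ℕ), HasAlgebraicDeterminant W.toCohomologyData F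
        fun y : Fin (N * 2) => W.gr X (c y.divNat),
      ∀ i < X.dim, ¬ HasNumTrivialDeterminant W.toCohomologyData F
        fun _ : Fin 2 => W.gr X (2 * X.dim - i),
      ∀ (N : ℕ) (c : Fin N → ℕ), ¬ HasNumTrivialDeterminant W.toCohomologyData F
        fun y => W.gr X (c y)] ∧
    -- the standard conjecture D
    ((∀ b, W.StandardD (cart X b)) ↔ LefschetzStandard W.toCohomologyData F X d ∧
      ∀ (N : ℕ) (G : Fin N → Submodule K (W.H X)),
        (∀ y, IsStableIsotropic.{u, v, w, t} W.toCohomologyData X d (G y)) →
          ¬ HasNumTrivialDeterminant W.toCohomologyData F G) ∧
    (((∀ G, IsStableIsotropic.{u, v, w, t} W.toCohomologyData X d G → G = ⊥) ∨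
        ∀ b, ∃ e : (cart X b).Z 1, HardLefschetz W.toCohomologyData (cart X b) e ∧
          W.HodgeType (cart X b) e) →
      ((∀ b, W.StandardD (cart X b)) ↔ LefschetzStandard W.toCohomologyData F X d)) :=
  ⟨main_tfae W F F' hd, standardD_iff_isotropic W hd, fun h =>
    h.elim (standardD_iff_of_anisotropic W hd) (standardD_iff_lefschetz W hd)⟩
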