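import Mathlib
import Pool.Agent.Helper11.BP.Thm

/-!
# Standard conjecture D and positivity at a place of semistable reduction

Let `W` be any Weil cohomology theory over any field `k`, with coefficient field `K`. A place of
Hodge type of a variety `Y` over `k` with a divisor `e` is a semistable degeneration of `(Y, e)`,
over some field `k'` with some Weil cohomology theory `W'` (with the same field of coefficients),
such that all strata satisfy the standard conjecture D and the standard conjecture of Hodge type with
respect to the restrictions of `e`. For `ℓ`-adic cohomology this is a strictly semistable (or smooth)
model of `Y` over a discrete valuation ring, such that the intersections of components of the special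
fibre satisfy these conjectures; it is the case if all their cohomology is algebraic and the
Hodge–Riemann relations hold, for example for surfaces whose special fibre consists of surfaces
with `ρ = b₂` whose double curves are rational, or for quotients of Drinfeld's symmetric spaces.

We show that one place of Hodge type is as good as characteristic zero.

* If `(Y, e)` has a place of Hodge type, `Y` satisfies the standard conjecture of Hodge type with
  respect to `e`, and D holds for `Y` if and only if the conjecture `A(Y, e)` of Lefschetz type holds.
* If, moreover, `Y` is a product of varieties `V_i` which satisfy the Lefschetz standard conjecture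
  `B(V_i)` (such as curves, surfaces and abelian varieties), and if the hard Lefschetz theorem holds
  for the `V_i` and for `(Y, e)`, then D holds for `Y` and for all varieties dominated by `Y`. For
  example, `Y` may be the product of two surfaces.
* If all powers of `X` have places of Hodge type, D holds for all powers of `X`, and all
  varieties dominated by them, if and only if `B(X)` holds.

On the proof. Let `M` be the space of the rational combinations of the classes of algebraic cycles
on the strata. By D and Hodge type for the strata, `M` is a polarised Lefschetz module. The weight
complex of the degeneration, with the differential `ρ + δ`, where `ρ` and `δ` are the restriction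
and Gysin maps, is a complex of such modules with an action of `sl₂ × sl₂`, one factor for the
divisors and one for the monodromy. The Laplace operator commutes with this action. So the class of
the specialisation of a cycle on `Y` has a harmonic representative in the strata of level zero, which
is rational, and the polarisation is definite on the primitive harmonic elements.

If `B(V_i)` holds for all factors, the operators in cohomology given by the inverses of the powers of
`e` are algebraic on the product.
-/

universe u v w u' w'

open Pool.Agent.Helper10 Pool.Agent.Helper11 Pool.Agent.Helper11.Obs
  Pool.Agent.Helper11.BD

theorem Pool.Agent.Helper11.Old.BoundaryPositivity.result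
    {k : Type u} [Field k] {K : Type v} [Field K] [CharZero K] (W : WeilCohomology.{u, v, w} k K)
    (F : Subfield K) :
    -- varieties with one place of Hodge type
    (∀ (Y : SmProjVar k) (e : Y.Z 1),
      HasHodgePlace.{u, v, w, u', w'} W.toCohomologyData Y e →
      W.HodgeType Y e ∧ (W.StandardD Y ↔ W.LefschetzType Y e)) ∧
    -- products of varieties which satisfy the Lefschetz standard conjecture
    (∀ (r : ℕ) (V : Fin r → SmProjVar k) (d : ∀ i, (V i).Z 1) (e : (prodVar (pt k) V).Z 1),
      (∀ i, HardLefschetz W.toCohomologyData (V i) (d i) ∧
        LefschetzStandard W.toCohomologyData F (V i) (d i)) →
      HardLefschetz W.toCohomologyData (prodVar (pt k) V) e →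
      HasHodgePlace.{u, v, w, u', w'} W.toCohomologyData (prodVar (pt k) V) e →
      ∀ T, W.DominatedBy (fun Z => Z = prodVar (pt k) V) T → W.StandardD T) ∧
    -- all powers of a variety
    ∀ (X : SmProjVar k) (d : X.Z 1), HardLefschetz W.toCohomologyData X d →
      (∀ b, ∃ e : (cart X b).Z 1, HardLefschetz W.toCohomologyData (cart X b) e ∧
        HasHodgePlace.{u, v, w, u', w'} W.toCohomologyData (cart X b) e) →
      ((∀ T, W.DominatedBy (fun Z => ∃ b, Z = cart X b) T → W.StandardD T) ↔
        LefschetzStandard W.toCohomologyData F X d) :=
  ⟨fun _ _ h => hodgeType_of_place W h, fun _ _ _ _ hV he h _ hT =>
    standardD_of_dominatedBy W (fun Z (hZ : Z = _) => by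
      rw [hZ]
      exact standardD_of_place W (fun i => (hV i).1) (fun i => (hV i).2) he h) hT,
    fun _ _ hd h => standardD_iff_of_places W hd h⟩
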