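import Mathlib
import Pool.Agent.Helper11.CanThm

/-!
# The standard conjecture D and the canonical filtration of cohomology

Let `W` be any Weil cohomology theory over any field `k`, with coefficient field `K`. Let `X` be a
variety all of whose powers satisfy the standard conjecture D, for instance a point. Let
`E c ⊆ H(V c)` be finitely many pieces of cohomology: subspaces of even or odd classes which are
images of projectors given by algebraic correspondences, orthogonal for Poincaré duality; for
instance all `H ^ i(V) + H ^ (2 dim V - i)(V)`, for `V` any smooth projective variety over a finite
field or any abelian variety. Consider the words in these pieces of length at most a given `n ≥ 2`:
the products, on arbitrary varieties `T`, of pull-backs of at most `n` elements of the pieces and of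
the pull-back of a class on a power of `X`.

We attach to these data a canonical filtration, indexed by the real numbers, of each `E c`. It
measures the failure of the standard conjecture D. Let the weight of a word be the sum of the
degrees of its letters. Classes of algebraic cycles are orthogonal to all words of positive weight,
and an algebraic class is numerically trivial (in its component spanned by words) if and only if it
is orthogonal to the words of weight `0`, and then it is orthogonal to all words of weight `> - 1`.
In other words, the standard conjecture D holds for the graded space associated with the
filtration, without any hypothesis. The filtration is self-dual, it is stable under all symmetries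
of `H`, with coefficients in any extension of `K` (such as the action of a Galois group), it is
characterised as the shortest filtration with the above properties, and it is trivial if and only
if numerically trivial classes are orthogonal to the words. If it is trivial, the standard
conjecture D holds for all varieties whose cohomology is spanned by the words.

For an abelian variety over a finite field and `ℓ`-adic cohomology, Tate's theorem implies that the
filtration is given by a real function on the set of eigenvalues of Frobenius, invariant under the
Galois group of `ℚ_ℓ` and odd for complex conjugation, and its minimality implies that this function
is a real linear combination of multiplicative relations between the eigenvalues. So the standard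
conjecture D holds for all powers of the abelian variety if there is no such function except `0`.
For an absolutely simple abelian variety of odd prime dimension this is the case for all `ℓ` which
do not split in a certain imaginary quadratic field.

The proof uses geometric invariant theory (the Hilbert-Mumford criterion, Kempf's optimal
one-parameter subgroups) for products of general linear groups and families of tensors of mixed
shapes, Galois descent, and the vanishing of the contractions of numerically trivial classes with
algebraic classes.
-/

universe u v w t

open Pool.Agent.Helper10 Pool.Agent.Helper11.Obs

theorem Pool.Agent.Helper11.Old.CanonicalFiltration.result
    {k : Type u} [Field k] {K : Type v} [Field K] [CharZero K] (W : WeilCohomology.{u, v, w} k K)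
    (X : SmProjVar k) (hX : ∀ m, W.StandardD (power X m)) {P : ℕ} (V : Fin P → SmProjVar k)
    (E : Subspaces W.toCohomologyData V) (hE : ∀ c, IsPiece W.toCohomologyData (V c) (E c))
    (n : ℕ) (hn : 2 ≤ n) :
    ∃ F : Filtrations W.toCohomologyData V,
      IsCanonical.{u, v, w, t} W.toCohomologyData X V E n F ∧
      (IsTrivial W.toCohomologyData F ↔ NumTrivialOrthogonal W.toCohomologyData X V E n) ∧
      (IsTrivial W.toCohomologyData F →
        ∀ Y, SpannedBy W.toCohomologyData X V E n Y → W.StandardD Y) := by
  obtain ⟨F, hF, h1⟩ := Pool.Agent.Helper11.Can.exists_canonical W hX V E hE hn
  have h2 := Pool.Agent.Helper11.Can.numTrivialOrthogonal_of_trivial W hF.admissible
  exact ⟨F, hF, ⟨h2, h1⟩, fun h Y hY =>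
    Pool.Agent.Helper11.Can.standardD_of_numTrivialOrthogonal W (h2 h) hY⟩
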