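import Mathlib
import Pool.Agent.Helper11.Ro.Iff

/-!
# The standard conjecture D and determinants

Let `W` be any Weil cohomology theory over any field `k`, with coefficient field `K`, and let `F` be
a subfield of `K`, such as `K` or the field of rational numbers. Let `X` be a variety all of whose
powers satisfy the standard conjecture D, for instance a point. Let `E c ⊆ H(V c)` be finitely many
pieces of cohomology over `F`: subspaces of even or odd classes which are images of projectors given
by algebraic correspondences with coefficients in `F`, orthogonal for Poincaré duality; for
instance `H ^ 1` of an abelian variety, as a piece of `H ^ 1` of a curve, or all
`H ^ i(V) + H ^ (2 dim V - i)(V)`, for `V` any smooth projective variety over a finite field or any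
abelian variety. Consider the words in these pieces: the products, on arbitrary varieties `T`, of
pull-backs of elements of the pieces and of the pull-back of a class on a power of `X`. If
numerically trivial classes are orthogonal to all words, the standard conjecture D holds for all
varieties whose cohomology is spanned by images of the words under algebraic correspondences.

We show that it suffices to consider *determinants*: if some numerically trivial class is not
orthogonal to the words, then there are flags of totally isotropic subspaces `G c i` of the pieces,
which are stable under all algebraic correspondences between the pieces and under all symmetries of
the cohomology theory, with coefficients in any extension of `K` (such as the action of a Galois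
group), such that the product of the determinants of all the `G c i` or rather some power of it, a
multilinear form of many variables, is given by a numerically trivial `F`-linear combination of
classes of algebraic cycles. If `X` is a point, the determinant class (the tensor product of powers
of the top exterior powers of the `G c i`) is represented by a numerically trivial class of an
algebraic cycle with coefficients in `F`. Moreover, for all symmetries `g`, with coefficients in an
algebraically closed field, the product of the determinants of `g` on the `G c i` is, up to torsion,
in the group generated by the multiplier of `g` (the value of the cyclotomic character) and the
eigenvalues of `g` on `H(X)`.

In particular the standard conjecture D holds if there are no such flags. Let `A` be an abelian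
variety over a finitely generated field `k` of positive characteristic, and `H` the `ℓ`-adic
cohomology. By the Tate conjecture for endomorphisms of abelian varieties (a theorem of Tate, Zarhin
and Mori, which is not part of this file) the subspaces of `H ^ 1` of a simple abelian variety which
are stable under the Galois group and under all endomorphisms are the direct sums of the summands
which belong to the places over `ℓ` of the centre of the endomorphism algebra. So there are no
non-trivial totally isotropic ones if the centre is totally real, or if no place over `ℓ` of its
maximal totally real subfield splits in it. This extends the theorem of Clozel, on abelian varieties
over finite fields, to all fields of positive characteristic.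

On the proof. The flags come from a canonical filtration, indexed by the real numbers, of each
`E c`, which is the optimal one in the sense of Kempf for the tensors given by algebraic classes.
The leading terms of these tensors must have an invariant which does not vanish, of the character
given by the filtration (Ramanan, Ramanathan, Ness: otherwise they would be unstable themselves, and
their optimal filtration could be used to shorten the canonical one). By invariant theory the
invariant is a full contraction of the tensors and of determinants. It is the determinant of the
filtration contracted with algebraic classes, some of which are numerically trivial. By the
extremality of the weight, after antisymmetrisation these algebraic classes must themselves give a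
multiple of the determinant.
-/

universe u v w t

open Pool.Agent.Helper10 Pool.Agent.Helper11.Obs Pool.Agent.Helper11.Ro

theorem Pool.Agent.Helper11.Old.DeterminantFlags.result
    {k : Type u} [Field k] {K : Type v} [Field K] [CharZero K] (W : WeilCohomology.{u, v, w} k K)
    (F : Subfield K) (X : SmProjVar k) (hX : ∀ m, W.StandardD (power X m)) {n : ℕ}
    (V : Fin n → SmProjVar k) (E : Subspaces W.toCohomologyData V)
    (hE : ∀ c, IsPieceOver W.toCohomologyData F (V c) (E c)) :
    ((∀ b, NumTrivialOrthogonal W.toCohomologyData X V E b) ↔
      ∀ G : ∀ c, ℕ → Submodule K (W.H (V c)),
        AreRelatedFlags.{u, v, w, t} W.toCohomologyData X V E G →
        ¬ HasNumTrivialDeterminantOver W.toCohomologyData X E G F) ∧
    ∀ b, NumTrivialOrthogonal W.toCohomologyData X V E b →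
      ∀ Y, SpannedBy W.toCohomologyData X V E b Y → W.StandardD Y :=
  ⟨Pool.Agent.Helper11.Ro.orthogonal_iff.{u, v, w, t} W hX V E hE,
    fun _ h _ hY => Pool.Agent.Helper11.Can.standardD_of_numTrivialOrthogonal W h hY⟩
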