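import Mathlib
import Pool.Agent.Helper11.Zt.SPieces

/-!
# The standard conjecture D and the factors of the characteristic polynomial of Frobenius

Let `W` be any Weil cohomology theory over any field `k`, with coefficient field `K`, and let `g` be
a symmetry of `W` with multiplier `χ`: natural automorphisms of the `K`-algebras `H(T)` which
multiply the classes of algebraic cycles of codimension `j` by `χ ^ j`, and the trace by `χ ^ dim T`.
For instance `g` is the Frobenius endomorphism, if `k` is a finite field with `q` elements (then
`χ = q`; this is the second part of the theorem), or the action of a Frobenius element of the Galois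
group on `ℓ`-adic cohomology, if `k` is finitely generated.

Let `X` be a variety all of whose powers satisfy the standard conjecture D, for instance a point.
Let `E c ⊆ H(V c)` be finitely many pieces of cohomology: subspaces of even or odd classes which are
images of projectors given by algebraic correspondences, orthogonal for Poincaré duality; for
instance `H^1(V c)`, or the part of it which comes from a factor of the Jacobian, for curves `V c`.

Let `P c` be the characteristic polynomial of `g` on `E c`. We assume that the `E c` are
multiplicity free: for all subspaces `F` of `E c` which are stable under correspondences and under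
symmetries, the characteristic polynomials of `g` on `F` and on `E c / F` are coprime. (This holds
if `P c` has no multiple factors. For `g` the Frobenius endomorphism of a finite field, it holds for
the `H^1` of a simple abelian variety, by Tate's theorem.)

The theorem: the standard conjecture D holds for all varieties the cohomology of which is spanned by
the images, under algebraic correspondences, of products of pull-backs of elements of the `E c` and
of classes on powers of `X`, unless there is a relation between the factors of the `P c`: monic
polynomials `Q c` over `K`, not all equal to `1`, such that all irreducible factors of `Q c` divide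
`P c`, such that `Q c` is prime to its dual (the roots of which are the `χ ^ dim (V c) / a`, for the
roots `a` of `Q c`), and such that some positive power of the product of the `Q c (0)` is in the group
generated by `χ` and the eigenvalues of `g` on `H(X)`.

If all irreducible factors of the `P c` are self-dual there are no relations; for abelian varieties
over finite fields this is the case of Clozel's theorem. If `K` contains all eigenvalues, a relation
is a multiplicative relation between them, apart from those given by duality. In general only the
relations which are defined over `K` matter. So for an abelian variety over a finite field and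
`ℓ`-adic cohomology, the standard conjecture D holds for all powers if the decomposition group at `ℓ`
does not fix any non-trivial multiplicative relation between the eigenvalues of Frobenius.

The proof: if numerically trivial classes were not orthogonal to the products above, the canonical
filtrations of the `E c` would give related flags: totally isotropic subspaces `F c i` of `E c`,
stable under correspondences and symmetries, such that some power of the product of the determinants
of `g` on the `F c i` is in the group generated by `χ` and the eigenvalues of `g` on `H(X)`. The
products over `i` of the characteristic polynomials of `g` on the `F c i` are a relation.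
-/

universe u v w

open Pool.Agent.Helper10 Pool.Agent.Helper11 Pool.Agent.Helper11.Obs Pool.Agent.Helper11.Zt Polynomial

theorem Pool.Agent.Helper11.Old.FrobeniusFactors.result
    {k : Type u} [Field k] {K : Type v} [Field K] [CharZero K] (W : WeilCohomology.{u, v, w} k K) :
    (∀ (g : ∀ X : SmProjVar k, W.H X → W.H X) (χ : K), IsSymmetryOver W.toCohomologyData g χ →
      ∀ X : SmProjVar k, (∀ m, W.StandardD (power X m)) →
      ∀ (n : ℕ) (V : Fin n → SmProjVar k) (E : Subspaces W.toCohomologyData V) (P : Fin n → K[X]),
      (∀ c, IsPiece W.toCohomologyData (V c) (E c)) →
      AreMultiplicityFree W.toCohomologyData V E g P →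
      (∀ Q, IsFactorRelation W.toCohomologyData X V g χ P Q → ∀ c, Q c = 1) →
      ∀ b Y, SpannedBy W.toCohomologyData X V E b Y → W.StandardD Y) ∧
    ∀ [Finite k], IsSymmetryOver W.toCohomologyData (fun X => W.pull (frob X)) (Nat.card k : K) :=
  ⟨fun _ _ hg _ hX _ _ _ _ hE hP hrel b _ hY => standardD_of_no_relation' hg hX hE hP hrel b hY,
    isSymmetryOver_frob W⟩

/-- The case where all irreducible factors of the `P c` are self-dual. For instance, let `k` be a
finite field, `K` the field of `ℓ`-adic numbers, and `g` the Frobenius endomorphism, and suppose that
the decomposition group at `ℓ` contains complex conjugation, which is true for all `ℓ` in a set of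
positive density: then the irreducible factors are self-dual by the Weil conjectures (the complex
conjugate of a root `a` of `P c` is `q ^ n / a`). If `E c` is a part of `H ^ i (V c)`, the Tate
conjecture for `V c × V c` and the semisimplicity of Frobenius on `E c` imply that `E c` is
multiplicity free. This holds for the `H ^ 1` of simple abelian varieties (Tate) and for the
transcendental part of the `H ^ 2` of K3 surfaces (Ito, Ito and Koshikawa). So the standard
conjecture D holds for these `ℓ` for all products of abelian varieties and K3 surfaces. -/
theorem Pool.Agent.Helper11.Old.FrobeniusFactors.selfDual
    {k : Type u} [Field k] {K : Type v} [Field K] [CharZero K] (W : WeilCohomology.{u, v, w} k K)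
    (g : ∀ X : SmProjVar k, W.H X → W.H X) (χ : K) (hg : IsSymmetryOver W.toCohomologyData g χ)
    (X : SmProjVar k) (hX : ∀ m, W.StandardD (power X m))
    (n : ℕ) (V : Fin n → SmProjVar k) (E : Subspaces W.toCohomologyData V) (P : Fin n → K[X])
    (hE : ∀ c, IsPiece W.toCohomologyData (V c) (E c))
    (hP : AreMultiplicityFree W.toCohomologyData V E g P)
    (hself : ∀ c (p : K[X]), Irreducible p → p ∣ P c →
      Associated p (dualPoly (χ ^ (V c).dim) p)) :
    ∀ b Y, SpannedBy W.toCohomologyData X V E b Y → W.StandardD Y := by
  refine (result W).1 g χ hg X hX n V E P hE hP ?_
  intro Q hQ c
  by_contra hne
  have hnu : ¬ IsUnit (Q c) := fun h => hne ((hQ.monic c).eq_one_of_isUnit h)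
  obtain ⟨p, hp, hpQ⟩ := WfDvdMonoid.exists_irreducible_factor hnu (hQ.monic c).ne_zero
  have h1 := hself c p hp (hQ.factors c p hp hpQ)
  have h2 : p ∣ dualPoly (χ ^ (V c).dim) (Q c) := h1.dvd.trans (dual_dvd_dual hpQ)
  exact hp.not_isUnit ((hQ.coprime c).isUnit_of_dvd' hpQ h2)

/-- If the characteristic polynomials have no multiple factors, the pieces are multiplicity free.
Examples: the primitive part of the cohomology of a smooth complete intersection, and the
transcendental part of the `H ^ 2` of a surface, if Frobenius has no multiple eigenvalues on it. -/
theorem Pool.Agent.Helper11.Old.FrobeniusFactors.multiplicityFree_of_squarefree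
    {k : Type u} [Field k] {K : Type v} [Field K] [CharZero K] (W : WeilCohomology.{u, v, w} k K)
    (g : ∀ X : SmProjVar k, W.H X → W.H X) (n : ℕ) (V : Fin n → SmProjVar k)
    (E : Subspaces W.toCohomologyData V) (P : Fin n → K[X])
    (hP : ∀ c, IsCharpolyOn (g (V c)) (E c) (P c)) (hsq : ∀ c, Squarefree (P c)) :
    AreMultiplicityFree W.toCohomologyData V E g P := by
  refine ⟨hP, ?_⟩
  intro c F _ _ f h _ hfh
  have h1 := hsq c
  rw [hfh, squarefree_mul_iff] at h1
  exact h1.1.isCoprime
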