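import Mathlib
import Pool.Agent.Helper11.FrobThm

/-!
# Standard conjecture D over finite fields and multiplicative relations between eigenvalues

Let `k` be a finite field of characteristic `p`, `W` a Weil cohomology theory over `k` with
coefficient field `K`, and `Ω` an algebraic closure of `K`. Let `L` be a set of Frobenius
eigenforms `l : H(X) → Ω`, stable under `Γ = Aut(Ω/K)`. Suppose that every `Γ`-stable word in the
elements of `L`, the eigenvalue of which is in `G` (for instance, is a power of `p`), has an
algebraic power. Then the standard conjecture D holds for every variety generated by `L`, and for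
its product with every variety `X` the Frobenius eigenvalues of which are in `G` and all of whose
powers satisfy the standard conjecture D.
-/

universe u v w t

open Pool.Agent.Helper10 Pool.Agent.Helper11

theorem Pool.Agent.Helper11.Old.FrobeniusRelations.result
    {k : Type u} [Field k] [Finite k] {K : Type v} [Field K] [CharZero K]
    (W : WeilCohomology.{u, v, w} k K) (Ω : Type t) [Field Ω] [Algebra K Ω] [IsAlgClosure K Ω]
    (L : Set (CohForm W.toCohomologyData Ω)) (lam : CohForm W.toCohomologyData Ω → Ωˣ)
    (G : Subgroup Ωˣ) (hp : ∃ a ∈ G, (a : Ω) = (ringChar k : Ω))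
    (hG : ∀ σ : Ω ≃ₐ[K] Ω, ∀ a ∈ G, Units.map (σ : Ω →* Ω) a ∈ G)
    (hL : IsFrobeniusSet W.toCohomologyData Ω L lam)
    (hR : InvariantWordsAlgebraic W.toCohomologyData Ω L lam G) (Y : SmProjVar k)
    (hY : W.SummandOf (WordType W.toCohomologyData Ω L G) Y) : W.StandardD Y := by
  have hprime : Fact (ringChar k).Prime := by
    refine ⟨(CharP.char_is_prime_or_zero k (ringChar k)).resolve_right fun h0 => ?_⟩
    have : CharP k 0 := h0 ▸ ringChar.charP k
    have : CharZero k := CharP.charP_to_charZero k
    exact not_finite k
  exact standardD_of_words hp hG hL hR Y hY
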