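import Mathlib
import Pool.Agent.Helper11.FP.Thm

/-!
# The standard conjecture D over function fields

Let `S` be a smooth projective variety over a field `F` of arbitrary characteristic, let `k` be its
function field, and let `W` and `W'` be Weil cohomology theories over `F` and over `k`, with the
same coefficients, which are related by restriction maps.  A smooth projective model of a smooth
projective variety `X` over `k` is a smooth projective variety `Y` over `F` with a morphism
`f : Y ⟶ S` whose generic fibre is `X`.  The fixed part of `H'(X)` is the image of `H(Y)`.

The following conditions are equivalent:

1. conjecture D holds for all `X` over `k` which have a smooth projective model over `S`;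
2. conjecture D holds for all varieties over `F`, and for all models the orthogonal projection of
   `H'(X)` onto the fixed part exists and is algebraic;
3. conjecture D holds for all varieties over `F`, and for all models the Poincaré pairing is
   non-degenerate on the fixed part;
4. conjecture D holds for all varieties over `F`, and for all models the classes of cycles on `Y`
   whose product with the class of a closed fibre of `f` is zero restrict to zero on `X`.

Moreover, if conjecture D holds for the cycles of codimension `j + dim S` on `Y`, then it holds for
the cycles of codimension `j` on `X` if and only if the condition in 4 holds for the cycles of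
codimension `j` on `Y`.

For `l`-adic cohomology the pairing is non-degenerate on the fixed part by Deligne's theorem.
-/

universe u v w

open CategoryTheory AlgebraicGeometry

namespace Pool.Agent.Results.MP_5f0950_ag.FunctionFields

open Pool.Agent.Helper10 Pool.Agent.Helper11.FP

theorem result {F k : Type u} [Field F] [Field k] [Algebra F k] {K : Type v} [Field K]
    [CharZero K] (W : WeilCohomology.{u, v, w} F K) (W' : WeilCohomology.{u, v, w} k K)
    (E : Comparison W W') (S : SmProjVar F) (σ : Spec (CommRingCat.of k) ⟶ S.toOver.left)
    (hσ : IsGenericPoint σ) (hE : E.IsCompatible σ) :
    List.TFAE [∀ X : SmProjVar k, Nonempty (Model σ X) → W'.StandardD X,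
      (∀ V : SmProjVar F, W.StandardD V) ∧
        ∀ (X : SmProjVar k) (m : Model σ X), FixedPartAlgebraic E m,
      (∀ V : SmProjVar F, W.StandardD V) ∧
        ∀ (X : SmProjVar k) (m : Model σ X), FixedPartNondegenerate E m,
      (∀ V : SmProjVar F, W.StandardD V) ∧
        ∀ (X : SmProjVar k) (m : Model σ X) (j : ℕ), ClosedFibreDetectsCycles E m j] ∧
    ∀ (X : SmProjVar k) (m : Model σ X) (j : ℕ), StandardDAt W m.Y (j + S.dim) →
      (StandardDAt W' X j ↔ ClosedFibreDetectsCycles E m j) :=
  ⟨tfae hσ hE, fun _ m _ hD => standardDAt_iff hσ hE m hD⟩

end Pool.Agent.Results.MP_5f0950_ag.FunctionFields
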