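import Mathlib
import Pool.Agent.Helper34.GD.Final

/-!
# Galois descent for the standard conjecture D

Let `W₀` and `W` be Weil cohomology theories over fields `k₀` and `k`, with coefficients in the same
field `K` of characteristic `0`. Let `V₀ c` be finitely many varieties over `k₀`, and let the
varieties `V c` over `k` be obtained from them by extension of the base field, with a group `Γ`
acting on the cohomology like a Galois group. For `ℓ`-adic cohomology this is the case if
`V c = V₀ c ⊗ k`, where `k` is an algebraic Galois extension of `k₀`, or any algebraically closed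
extension; then `Γ` is the absolute Galois group of `k₀`.

Let `E c` be subspaces of `H₀(V₀ c)`. Words in the `E c` are products, on arbitrary varieties `T`,
of pull-backs of elements of the `E c`.

(1) If the standard conjecture D holds over `k₀` for all products of the `V₀ c`, or if at least
numerically trivial classes over `k₀` are orthogonal to all words in the `E c` on varieties over
`k₀`, then D holds for all varieties `Y` over `k` whose cohomology is spanned by the images of words
in the `E c`, on varieties over `k`, under correspondences over `k` (if `E c = H₀(V₀ c)`, for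
instance for all products of the `V c`). So cycles over `k₀` suffice.

(2) The conclusion holds if the `V₀ c` specialise to varieties `V' c` over a finite field `k'` with
`q` elements, and the `E c` are rational pieces of the middle cohomology over `k₀` (images of
projectors given by rational combinations of cycles over `k₀`, orthogonal for Poincaré duality) such
that on the specialisation of `E c` the characteristic polynomial `R c` of Frobenius has rational
coefficients, no multiple factors, complex roots of absolute value `q ^ (dim / 2)`, and that each of
its irreducible factors over `K` is self-dual (if `a` is a root, so is `q ^ dim / a`). For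
`K = ℚ_ℓ` the last condition holds for the `ℓ` in a set of positive density.

No case of the standard conjectures or of the Tate conjecture is assumed, and no semisimplicity of
Galois representations.

On the proof of (1). The conjugates of a cycle over `k` on a product `T` of the `V c` form a finite
set, up to homological equivalence. If the cycle is numerically trivial, so are its conjugates
`z 1, …, z N`, and for all `r` so is the sum `w r` of the classes `z i × ⋯ × z i` on `T ^ r`, which
is fixed by `Γ`, so comes from `k₀`. Hence `w r` is orthogonal to the class `x × ⋯ × x` if `x` is a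
product of elements of the `E c`, that is, the sum of the `⟨z i, x⟩ ^ r` is `0`. If this holds for
all `r ≥ 1`, all `⟨z i, x⟩` are `0`. In the proof of (2), the theorem on determinants and flags is
applied to the `V₀ c` and specialisations, as for cycles over `k₀`.
-/

universe u v w u' w' t

open Pool.Agent.Helper10 Pool.Agent.Helper11 Pool.Agent.Helper11.Obs Pool.Agent.Helper11.Zt
  Pool.Agent.Helper11.BD Pool.Agent.Helper34.GD

theorem Pool.Agent.Helper11.Old.GaloisDescent.result
    {k₀ : Type u} [Field k₀] {k : Type u} [Field k] {K : Type v} [Field K] [CharZero K]
    (W₀ : WeilCohomology.{u, v, w} k₀ K) (W : WeilCohomology.{u, v, w} k K)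
    -- finitely many varieties over `k₀`, extended to `k`
    {P : ℕ} {V₀ : Fin P → SmProjVar k₀} {V : Fin P → SmProjVar k}
    {φ : ∀ c, W₀.H (V₀ c) → W.H (V c)} {Γ : Type t} [Group Γ] {χ : Γ →* Kˣ}
    {ψ : Γ → ∀ c, W.H (V c) → W.H (V c)}
    (hφ : IsGaloisExtension W₀.toCohomologyData W.toCohomologyData (algebraMap ℚ K).fieldRange
      V₀ V φ χ ψ)
    -- subspaces of the cohomology of the varieties over `k₀`
    (E : ∀ c, Submodule K (W₀.H (V₀ c))) :
    -- (1) descent
    (((∀ (b : ℕ) (c : Fin b → Fin P), W₀.StandardD (prodVar (pt k₀) fun i => V₀ (c i))) ∨
      (∀ (T : SmProjVar k₀) (z y : W₀.H T), IsNumTrivial W₀.toCohomologyData T z →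
        Ro.IsWordIn W₀.toCohomologyData V₀ E T y → W₀.pairing T z y = 0)) →
      ∀ Y, Ro.IsSpanned W.toCohomologyData V (fun c => (E c).map (hφ.extension.lin c)) Y →
        W.StandardD Y) ∧
    -- (2) pieces with a simple spectrum of Frobenius at a specialisation over a finite field
    ∀ {k' : Type u'} [Field k'] [Finite k'] (W' : WeilCohomology.{u', v, w'} k' K)
      (V' : Fin P → SmProjVar k') (φ' : ∀ c, W₀.H (V₀ c) → W'.H (V' c))
      (hφ' : AreSpecializations W₀.toCohomologyData W'.toCohomologyData V₀ V' φ')
      (_ : ∀ c, Ro.IsPieceOver W₀.toCohomologyData (algebraMap ℚ K).fieldRange (V₀ c) (E c))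
      (_ : ∀ c, E c ≤ W₀.gr (V₀ c) (V₀ c).dim)
      (R : Fin P → Polynomial ℚ)
      (_ : ∀ c, IsCharpolyOn (W'.pull (frob (V' c))) ((E c).map (hφ'.lin c))
        ((R c).map (algebraMap ℚ K)))
      (_ : ∀ c, Squarefree (R c))
      (_ : ∀ c, ∀ z : ℂ, Polynomial.aeval z (R c) = 0 →
        ‖z‖ ^ 2 = (Nat.card k' : ℝ) ^ (V₀ c).dim)
      (_ : ∀ c (p : Polynomial K), Irreducible p → p ∣ (R c).map (algebraMap ℚ K) →
        Associated p (dualPoly ((Nat.card k' : K) ^ (V₀ c).dim) p)),
      ∀ Y, Ro.IsSpanned W.toCohomologyData V (fun c => (E c).map (hφ.extension.lin c)) Y →
        W.StandardD Y :=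
  galoisDescent W₀ W hφ E
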