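import Mathlib
import Pool.Agent.Helper11.GP.Final

/-!
# Standard conjecture D: from the special fibre to the generic fibre

Let `W` be a Weil cohomology theory for varieties over a field `k`, and `W'` a Weil cohomology theory
for varieties over a field `k'`, with the same field of coefficients `K` of characteristic `0`. Let
`V c` be finitely many varieties over `k` which specialise to varieties `V' c` over `k'`. For
`ℓ`-adic cohomology this is the case if they have good reduction at a common place; if `k` is finitely
generated over its prime field of characteristic `p`, the `V' c` may be varieties over a finite field.

We assume that the standard conjecture D holds for all products of the `V' c`, for example by the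
theorem of Clozel for abelian varieties over finite fields, and deduce D over `k`. Positivity is
needed only for classes of degree two in the cohomology of the `V' c`: for every `c`,

* either the hard Lefschetz theorem holds for `V c` and a divisor `d c`, and the standard conjecture
  of Hodge type holds for the single variety `V' c × V' c`, not for its powers, (as it does for
  curves, for K3 surfaces and for surfaces such that `V' c × V' c` is dominated by them),
* or we only consider a piece `E c` of the cohomology of `V c`, with a correspondence `s` over `k`
  such that the form `⟨a₁, s a₂⟩ ⟨b₁, s b₂⟩` does not represent `0` on the classes of cycles in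
  `E' c ⊗ E' c` (as it does for `H¹` of an abelian variety, by the positivity of the Rosati
  involution, although the standard conjecture of Hodge type is open for abelian varieties).

Then D holds for all varieties `Y` over `k` whose cohomology is spanned by the images of words in the
`E c` (with `E c = H(V c)` in the first case) under correspondences, for example for all products of
the `V c`, if and only if the Lefschetz standard conjecture `B(V c)` holds for all `c` of the first
kind.

On the proof. If D does not hold, there is a family of totally isotropic subspaces `G` of the even
and odd parts of the `H(V c)`, or of the `E c`, stable under all correspondences, and a nonzero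
rational class `z` of an algebraic cycle on a product of the `V c` which lies in the product of the
determinants of the `G`. By D over `k'` its specialisation `z'` is not orthogonal to some cycle
`a'`, although `z` is numerically trivial. The contraction of `z'` and `a'` in all slots but the
last is the class of a nonzero cycle on `V' c × V' c` which lies in `φ(G) ⊗ H'(V' c)`. This
contradicts the positivity, since `G` is isotropic and stable under `s`, or under the operators of
the Lefschetz decomposition, which are algebraic over `k` by `B(V c)`.
-/

universe u v w u' w'

open Pool.Agent.Helper10 Pool.Agent.Helper11 Pool.Agent.Helper11.Obs
  Pool.Agent.Helper11.BD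

theorem Pool.Agent.Helper11.Old.Generization.result
    {k : Type u} [Field k] {K : Type v} [Field K] [CharZero K] (W : WeilCohomology.{u, v, w} k K)
    {k' : Type u'} [Field k'] (W' : WeilCohomology.{u', v, w'} k' K) (F : Subfield K)
    -- finitely many varieties and their specialisations
    (P : ℕ) (V : Fin P → SmProjVar k) (V' : Fin P → SmProjVar k')
    (φ : ∀ c, W.H (V c) → W'.H (V' c))
    (hφ : AreSpecializations W.toCohomologyData W'.toCohomologyData V V' φ)
    -- D for the products of the specialisations
    (hD : ∀ (b : ℕ) (c : Fin b → Fin P), W'.StandardD (prodVar (pt k') fun i => V' (c i)))
    -- polarised varieties, and positive pieces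
    (E : ∀ c, Submodule K (W.H (V c))) (d : ∀ c, (V c).Z 1)
    (h : ∀ c, (E c = ⊤ ∧ IsPolarizedAt W.toCohomologyData W'.toCohomologyData (d c) (φ c)) ∨
      (Ro.IsPieceOver W.toCohomologyData (algebraMap ℚ K).fieldRange (V c) (E c) ∧
        IsPositiveAt W.toCohomologyData W'.toCohomologyData (algebraMap ℚ K).fieldRange (E c) (φ c))) :
    (∀ Y, Ro.IsSpanned W.toCohomologyData V E Y → W.StandardD Y) ↔
      ∀ c, E c = ⊤ → IsPolarizedAt W.toCohomologyData W'.toCohomologyData (d c) (φ c) →
        LefschetzStandard W.toCohomologyData F (V c) (d c) :=
  standardD_iff_of_pieces W W' hφ hD h
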