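import Mathlib
import Pool.Agent.Helper11.Rn.Thm
import Pool.Agent.Helper32.PadicDense

/-!
# The standard conjecture D, irrational multiples of classes of algebraic cycles, and the finite
generation of groups of integral classes

Let `W` be any Weil cohomology theory over any field `k`, with coefficient field `K`, and let `F` be
a subfield of `K`, for instance the field of rational numbers. Let `E c ⊆ H(V c)` be finitely many
pieces over `F`: subspaces of even or odd classes which are images of orthogonal projectors given by
algebraic correspondences with coefficients in `F`. Assume that they are anisotropic over `F`: there
is no nonzero totally isotropic subspace `G` of `E c`, stable under all algebraic correspondences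
and all symmetries (such as the action of a Galois group), such that the eigenvalues on `G` of all
correspondences with coefficients in `F` are the roots of polynomials with coefficients in `F`.

Let `𝒞` be the class of all varieties `Y` such that `H(Y)` is spanned by the images, under algebraic
correspondences, of the words in the `E c` (products of pull-backs of elements of the `E c`), and
assume that the `V c` are in `𝒞`. Let `𝒮` be the class of all products of copies of the `V c` and of
the point, or `𝒞`, or any class between these, and let `A(Y) ⊆ H(Y)` be the space of all `F`-linear
combinations of classes of algebraic cycles, or the space of those which are numerically trivial, or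
any `F`-space between these. Then the following are equivalent:

* the standard conjecture D holds for all `Y` in `𝒞`;
* the standard conjecture D holds for all `Y` in `𝒮`;
* for all `Y` in `𝒮`, elements of `A(Y)` which are linearly independent over `F` are linearly
  independent over `K`;
* for all `Y` in `𝒮`, if `z ≠ 0` and its multiple `a • z`, where `a ∈ K` is algebraic over `F`, are
  in `A(Y)`, then `a ∈ F`;
* all `Y` in `𝒮` degenerate, with respect to some Weil cohomology theory over some field, to
  varieties which satisfy the standard conjecture D.

If `K` is the fraction field of a discrete valuation ring `O` and `F` is dense in `K`, for instance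
if `F` is the field of rational numbers, `K` the field of `ℓ`-adic numbers and `O` the ring of
`ℓ`-adic integers, then they are also equivalent to

* for all `Y` in `𝒮` and all (or some) `O`-lattices in `H(Y)`, the elements of `A(Y)` which lie in
  the lattice form a finitely generated module over `F ∩ O`.

If `F` is algebraically closed in `K`, for instance if `F = K`, the condition on multiples is empty,
and the standard conjecture D holds for all `Y` in `𝒞`.

Example: let `A` be an abelian variety of dimension `g` over a finitely generated field `k`, `H` the
`ℓ`-adic cohomology, and `F` the field of rational numbers. Then `E = H ^ 1(A) + H ^ (2 g - 1)(A)` is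
an anisotropic piece over `F`, for all `ℓ`: by theorems of Tate, Zarhin, Mori and Faltings, which
are not part of this file, `G` is the sum of the subspaces `H ^ 1(A)_v + H ^ (2 g - 1)(A)_v` for a
set of places `v` over `ℓ` of the centre of the endomorphism algebra; if the eigenvalues of the
elements of the centre are the roots of polynomials with rational coefficients, `G` contains
`H ^ 1(B)` for some isotypic factor `B ≠ 0` of `A`, or is `0`.

* So for all fields `k` and all `ℓ`, the standard conjecture D holds for all abelian varieties if
  and only if classes of algebraic cycles on abelian varieties which are linearly independent over
  the rational numbers are linearly independent over the `ℓ`-adic numbers (a conjecture of Tate), if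
  and only if no numerically trivial class `z ≠ 0` of an algebraic cycle with rational coefficients
  on an abelian variety has a multiple `a • z` of this kind with an irrational algebraic number `a`,
  and if and only if the groups of integral `ℓ`-adic classes on abelian varieties some multiple of
  which is the class of an algebraic cycle are finitely generated over the ring of rational numbers
  with denominators prime to `ℓ`. By Rosenschon and Srinivas these are the images of the étale
  motivic cohomology groups `H ^ (2 j) (Y, Z(j))`, whose finite generation, for finite `k`, is a
  conjecture of Lichtenbaum.
* If `A` has good reduction at some place of `k`, and the powers of the reduction satisfy the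
  standard conjecture D for `ℓ`, then the powers of `A` satisfy the standard conjecture D for `ℓ`,
  because the powers of `A` degenerate to the powers of the reduction. So for abelian varieties over
  fields of characteristic `p`, the conjecture follows from the case of finite fields. For all `ℓ`,
  it holds for all powers of `A` if some reduction of `A` over a finite field is isogenous to a
  product of elliptic curves, for instance supersingular: then all classes fixed by Frobenius on
  powers of the reduction are combinations of intersections of divisors (Spiess).

On the proof. If D does not hold, there are, by the theory of Kempf, Ramanan, Ramanathan and Ness,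
flags in the `E c`, stable under correspondences and symmetries, whose determinant is given by a
numerically trivial class `z` on a product of copies of the `V c`. We show that `z` can be chosen to
be an `F`-linear combination of classes of algebraic cycles. Correspondences with coefficients in
`F` multiply `z` by powers of the determinants of their actions on the flags, which are algebraic
over `F`. If these are in `F`, then the eigenvalues of the correspondences on the flags are roots of
polynomials with coefficients in `F`.
-/

universe u v w t

open Pool.Agent.Helper10 Pool.Agent.Helper11 Pool.Agent.Helper11.Obs Pool.Agent.Helper11.In
  Pool.Agent.Helper11.Rn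
open Pool.Agent.Helper11.Ro hiding HasRationalMultiples

theorem Pool.Agent.Helper11.Old.IndependenceCriterion.result
    {k : Type u} [Field k] {K : Type v} [Field K] [CharZero K] (W : WeilCohomology.{u, v, w} k K)
    (F : Subfield K) {n : ℕ} (V : Fin n → SmProjVar k) (E : Subspaces W.toCohomologyData V)
    (hE : ∀ c, IsPieceOver W.toCohomologyData F (V c) (E c))
    (hF : AreAnisotropicOver.{u, v, w, t} W.toCohomologyData V E F)
    (S : SmProjVar k → Prop) (hS : IsBetween W.toCohomologyData V E S)
    (A : ∀ Y : SmProjVar k, Submodule F (W.H Y))
    (hA : ContainsNumTrivial W.toCohomologyData F A) :
    [∀ Y, IsSpanned W.toCohomologyData V E Y → W.StandardD Y, ∀ Y, S Y → W.StandardD Y,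
      ∀ Y, S Y → IsIndependent (A Y), ∀ Y, S Y → HasRationalMultiples (A Y),
      ∀ Y, S Y → Degenerates W.toCohomologyData Y].TFAE ∧
    ∀ O : ValuationSubring K, IsDenseSubfield F O →
      [∀ Y, S Y → W.StandardD Y,
        ∀ Y, S Y → ∀ (m : ℕ) (b : Module.Basis (Fin m) K (W.H Y)),
          HasFGIntegralVectors O (A Y) b,
        ∀ Y, S Y → ∃ (m : ℕ) (b : Module.Basis (Fin m) K (W.H Y)),
          HasFGIntegralVectors O (A Y) b].TFAE :=
  ⟨criterion.{u, v, w, t} W hE hF hS hA,
    fun _ hO => integral_criterion'.{u, v, w, t} W hE hF hS hA hO⟩

/-- The case where `F` is the field of rational numbers in the field `K` of `ℓ`-adic numbers, for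
products of copies of the `V c`, and all classes. -/
theorem Pool.Agent.Helper11.Old.IndependenceCriterion.padic
    {k : Type u} [Field k] (l : ℕ) [Fact l.Prime] (W : WeilCohomology.{u, 0, w} k ℚ_[l]) {n : ℕ}
    (V : Fin n → SmProjVar k) (E : Subspaces W.toCohomologyData V)
    (hE : ∀ c, IsPieceOver W.toCohomologyData ⊥ (V c) (E c))
    (hV : ∀ c, IsSpanned W.toCohomologyData V E (V c))
    (hF : AreAnisotropicOver.{u, 0, w, t} W.toCohomologyData V E ⊥) :
    (∀ Y, IsSpanned W.toCohomologyData V E Y → W.StandardD Y) ↔
      ∀ Y, IsProductOf V Y → ∀ (m : ℕ) (b : Module.Basis (Fin m) ℚ_[l] (W.H Y)),
        HasFGIntegralVectors (Pool.Agent.Helper32.padicRing l)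
          (cycleSpan W.toCohomologyData ⊥ Y) b :=
  (integral_criterion.{u, 0, w, t} W hE hF (isBetween_products W hE hV)
    (containsNumTrivial_cycleSpan W) (Pool.Agent.Helper32.isDenseSubfield_padic l)).out 0 1
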