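import Mathlib
import Pool.Agent.Helper11.RelStableThm

/-!
# Standard conjecture D and the independence of algebraic cycles over subfields

Let `W` be any Weil cohomology theory over any field `k`, with coefficient field `K`, let `F` be a
subfield of `K`, and let `Ω` be an algebraically closed extension of `K`. Let `σ_0, …, σ_n` be
automorphisms of `Ω` which fix `F`, but need not fix `K` (for instance `F` is the field of rational
numbers, `n = 1`, `σ_0` is the identity, and `σ_1` is the complex conjugation for an isomorphism
between `Ω` and the field of complex numbers). Let `G` be a set of symmetries of the theory over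
`Ω` (for instance, a Galois group). Let `Y` be a finite product of varieties which are stable over
`F`, or the product of such a product and a variety all of whose powers satisfy the standard
conjecture D. Then the standard conjecture D holds for `Y` if and only if `F`-linear combinations
of classes of algebraic cycles in `H(Y)` which are linearly independent over `F` are linearly
independent over `K`. (This is no condition if `F = K`.)

By theorems of Tate, Zarhin, Mori and Faltings (which are not part of this file), all abelian
varieties over finitely generated fields are stable over the field of rational numbers, for all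
`ℓ`.
-/

universe u v w t

open Pool.Agent.Helper10 Pool.Agent.Helper11

theorem Pool.Agent.Results.MP_5f0950_ag.IndependenceOver.result
    {k : Type u} [Field k] {K : Type v} [Field K] [CharZero K] (W : WeilCohomology.{u, v, w} k K)
    (Ω : Type t) [Field Ω] [Algebra K Ω] [IsAlgClosed Ω] (F : Subfield K) (n : ℕ)
    (σ : Fin (n + 1) → (Ω ≃+* Ω))
    (hσ : ∀ j, ∀ a ∈ F, σ j (algebraMap K Ω a) = algebraMap K Ω a)
    (G : Set (∀ X : SmProjVar k, W.HΩ Ω X → W.HΩ Ω X)) (hG : G ⊆ W.symmetries Ω) (M : ℕ)
    (Y : SmProjVar k) (hY : RelativelyStableOver W Ω F σ G M Y) :
    W.StandardD Y ↔ IndependentOver W.toCohomologyData F Y :=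
  standardD_iff_independentOver hσ hG hY
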