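import Mathlib
import Pool.Agent.Helper11.ObsThm

/-!
# The standard conjecture D and isotropic subspaces of cohomology

Let `W` be any Weil cohomology theory over any field `k`, with coefficient field `K`, and let `Ω`
be an extension of `K` such that the field fixed by the automorphisms of `Ω` over `K` is `K` (for
instance `Ω = K`, or `Ω` algebraically closed). Let `X` be a variety all of whose powers satisfy
the standard conjecture D, for instance a point.

A class in `H(V)` is called residual (relative to `X`) if it is orthogonal to the images of the
cohomology of the powers of `X` under algebraic correspondences; for `X` a point: orthogonal to the
classes of algebraic cycles. We prove, for any variety `V` such that the residual classes are all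
of even degree, or all of odd degree, or more generally such that an algebraic correspondence acts
on them as the projector to the even part: if the standard conjecture D fails for some product
`X ^ a × V ^ b`, then there is a non-zero subspace `F` of `H(V)`, consisting of residual classes of
even degree or of residual classes of odd degree, which is totally isotropic for Poincaré duality,
stable under all algebraic correspondences from `V` to `V`, and such that `Ω ⊗ F` is stable under
all symmetries of `Ω ⊗ H` (such as the action of a Galois group on `ℓ`-adic cohomology). No case of
the standard conjecture D for `V` is assumed.

More generally we show that the class of varieties all of whose powers satisfy the standard
conjecture D is closed under products with varieties `V` without such isotropic subspaces, under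
products with varieties the cohomology of which is spanned by words in anisotropic pieces, and
under passage to varieties dominated by powers.

The proof uses geometric invariant theory (the Hilbert-Mumford criterion and the uniqueness of the
optimal destabilising flag, after Kempf) for the spaces of tensors obtained by pairing numerically
trivial classes with products of classes.
-/

universe u v w t

open Pool.Agent.Helper10 Pool.Agent.Helper11.Obs

theorem Pool.Agent.Results.MP_5f0950_ag.IsotropicObstruction.result
    {k : Type u} [Field k] {K : Type v} [Field K] [CharZero K] (W : WeilCohomology.{u, v, w} k K)
    (Ω : Type t) [Field Ω] [Algebra K Ω] (hΩ : FixedFieldEq K Ω) (Y : SmProjVar k)
    (hY : Tower W.toCohomologyData Ω Y) (n : ℕ) : W.StandardD (power Y n) :=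
  standardD_of_tower W Ω hΩ hY n
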