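import Mathlib
import Pool.Agent.Helper11.Dr.Thm

/-!
# The standard conjecture D, the canonical filtration of cohomology and related flags

Let `W` be any Weil cohomology theory over any field `k`, with coefficient field `K`. Let `X` be a
variety all of whose powers satisfy the standard conjecture D, for instance a point. Let
`E c ⊆ H(V c)` be finitely many pieces of cohomology: subspaces of even or odd classes which are
images of projectors given by algebraic correspondences, orthogonal for Poincaré duality; for
instance all `H ^ i(V) + H ^ (2 dim V - i)(V)`, for `V` any smooth projective variety over a finite
field or any abelian variety. Consider the words in these pieces of length at most a given `n ≥ 2`: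
the products, on arbitrary varieties `T`, of pull-backs of at most `n` elements of the pieces and of
the pull-back of a class on a power of `X`.

We attach to these data a canonical filtration, indexed by the real numbers, of each `E c`. It
measures the failure of the standard conjecture D. Let the weight of a word be the sum of the
degrees of its letters. Classes of algebraic cycles are orthogonal to all words of positive weight,
and numerically trivial ones are orthogonal to all words of weight `> - 1`. The filtration is the
unique shortest one with these properties. It is self-dual, it is stable under all symmetries of the
cohomology theory, with coefficients in any extension of `K` (such as the action of a Galois group),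
and it is trivial if and only if numerically trivial classes are orthogonal to the words. If it is
trivial, the standard conjecture D holds for all varieties whose cohomology is spanned by images of
the words under algebraic correspondences.

The main result is that the filtration is *related*: it jumps only at multiples of some `1 / D`, and
for all symmetries `g`, with coefficients in an algebraically closed field, the product of the
determinants of `g` on the steps of positive degree of all the filtrations is, up to torsion, in the
group generated by the multiplier of `g` (the value of the cyclotomic character) and the
eigenvalues of `g` on `H(X)`. So a numerically trivial class which is not homologically trivial gives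
multiplicative relations between the eigenvalues of all symmetries. If there are no related flags
other than `0` in the pieces, the filtration is trivial, and the standard conjecture D holds for all
varieties whose cohomology is spanned by words, of any length.

The proof of the relation: if it did not hold for a symmetry `g`, some homomorphism `ψ` from the
multiplicative group to the rational numbers would vanish on the multiplier and on the eigenvalues
of `g` on `H(X)` but not on the product of determinants. The values of `ψ` at the eigenvalues of `g`
on the pieces give weights for which all tensors given by algebraic classes have weight `0`. Moving
the canonical filtration in this direction would make it shorter.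
-/

universe u v w t

open Pool.Agent.Helper10 Pool.Agent.Helper11.Obs

theorem Pool.Agent.Results.MP_5f0950_ag.RelatedFlags.result
    {k : Type u} [Field k] {K : Type v} [Field K] [CharZero K] (W : WeilCohomology.{u, v, w} k K)
    (X : SmProjVar k) (hX : ∀ m, W.StandardD (power X m)) {P : ℕ} (V : Fin P → SmProjVar k)
    (E : Subspaces W.toCohomologyData V) (hE : ∀ c, IsPiece W.toCohomologyData (V c) (E c))
    (n : ℕ) (hn : 2 ≤ n) :
    ∃ F : Filtrations W.toCohomologyData V,
      IsCanonical.{u, v, w, t} W.toCohomologyData X V E n F ∧
      (∃ D, IsRelatedFiltration.{u, v, w, t} W.toCohomologyData X V E F D) ∧
      (IsTrivial W.toCohomologyData F ↔ NumTrivialOrthogonal W.toCohomologyData X V E n) ∧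
      (IsTrivial W.toCohomologyData F →
        ∀ Y, SpannedBy W.toCohomologyData X V E n Y → W.StandardD Y) := by
  obtain ⟨F, hF, h1, hD⟩ := Pool.Agent.Helper11.Dr.exists_related.{u, v, w, t} W hX V E hE hn
  have h2 := Pool.Agent.Helper11.Can.numTrivialOrthogonal_of_trivial W hF.admissible
  exact ⟨F, hF, hD, ⟨h2, h1⟩, fun h Y hY =>
    Pool.Agent.Helper11.Can.standardD_of_numTrivialOrthogonal W (h2 h) hY⟩
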