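import Mathlib
import Pool.Agent.Helper11.CritTFAE

/-!
# Standard conjecture D, independence of algebraic cycles over subfields, and degenerations

Let `W` be any Weil cohomology theory over any field `k`, with coefficient field `K`, let `F` be a
subfield of `K`, and let `Ω` be an algebraically closed extension of `K`. Let `σ_0, …, σ_n` be
automorphisms of `Ω` which fix `F`, but need not fix `K` (for instance `F` is the field of rational
numbers, `n = 1`, `σ_0` is the identity, and `σ_1` is the complex conjugation for an isomorphism
between `Ω` and the field of complex numbers). Let `G` be a set of symmetries of the theory over
`Ω` (for instance, a Galois group). Let `Y` be a finite product of varieties which are stable over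
`F`, or the product of such a product and a variety all of whose powers satisfy the standard
conjecture D. Then the following are equivalent:

* the standard conjecture D holds for `Y`;
* `F`-linear combinations of classes of algebraic cycles in `H(Y)` which are linearly independent
  over `F` are linearly independent over `K` (this is no condition if `F = K`);
* `Y` degenerates, with respect to some Weil cohomology theory with coefficients in `K` over some
  field, to varieties which satisfy the standard conjecture D (for instance, `Y` has a strictly
  semistable reduction all of whose strata satisfy the standard conjecture D).

By theorems of Tate, Zarhin, Mori and Faltings (which are not part of this file), all abelian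
varieties over finitely generated fields are stable over the field of rational numbers, for all
`ℓ`.
-/

universe u v w t

open Pool.Agent.Helper10 Pool.Agent.Helper11

theorem Pool.Agent.Helper11.Old.StableCriterion.result
    {k : Type u} [Field k] {K : Type v} [Field K] [CharZero K] (W : WeilCohomology.{u, v, w} k K)
    (Ω : Type t) [Field Ω] [Algebra K Ω] [IsAlgClosed Ω] (F : Subfield K) (n : ℕ)
    (σ : Fin (n + 1) → (Ω ≃+* Ω))
    (hσ : ∀ j, ∀ a ∈ F, σ j (algebraMap K Ω a) = algebraMap K Ω a)
    (G : Set (∀ X : SmProjVar k, W.HΩ Ω X → W.HΩ Ω X)) (hG : G ⊆ W.symmetries Ω) (M : ℕ)
    (Y : SmProjVar k) (hY : RelativelyStableOver W Ω F σ G M Y) :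
    [W.StandardD Y, IndependentOver W.toCohomologyData F Y,
      ∃ (k' : Type u) (_ : Field k') (W' : WeilCohomology.{u, v, w} k' K),
        DegeneratesToStandardD W.toCohomologyData W'.toCohomologyData Y].TFAE :=
  stable_tfae hσ hG hY
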